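import Pool.Agent.Helper64.MH.Defs

set_option autoImplicit false

noncomputable section

namespace MH.H74

open MeasureTheory Matrix

/-- FINV: a vertex is determined by its tight set -/
theorem FINV : MH.S_FINV := by
  intro τ _ d v h
  apply Set.Finite.of_finite_image (f := tight v h) (Set.toFinite _)
  intro q hq q' hq' hqq
  have hq := hq.2
  have hlin : ∀ x : Fin d → ℝ, q ⬝ᵥ x = q' ⬝ᵥ x := by
    intro x
    have hx : x ∈ Submodule.span ℝ (v '' tight v h q) := by rw [hq]; trivial
    induction hx using Submodule.span_induction with
    | mem x hx =>
      obtain ⟨t, ht, rfl⟩ := hx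
      have h1 : q ⬝ᵥ v t = h t := ht
      have h2 : q' ⬝ᵥ v t = h t := by
        have : t ∈ tight v h q' := by
          have h3 : tight v h q = tight v h q' := hqq
          rw [← h3]; exact ht
        exact this
      rw [h1, h2]
    | zero => simp
    | add x y _ _ hx hy => rw [dotProduct_add, dotProduct_add, hx, hy]
    | smul a x _ hx => rw [dotProduct_smul, dotProduct_smul, hx]
  funext i
  have := hlin (Pi.single i 1)
  simpa using this

end MH.H74

end
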